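import Pool.Agent.Helper89.OS.St2

/-! # Project OS, module HEC: the Hecke relation -/

set_option autoImplicit false

namespace Pool.Agent.Helper8.OS

open Matrix ComplexConjugate Pool.Agent.Helper94.YF Pool.Agent.Helper94.YG Pool.Agent.Helper89.OS

theorem sum_val (q : ℕ) [NeZero q] (g : ℕ → ℂ) :
    ∑ w : ZMod q, g w.val = ∑ i ∈ Finset.range q, g i := by
  refine Finset.sum_nbij' (fun w => w.val) (fun n => (n : ZMod q)) ?_ ?_ ?_ ?_ ?_
  · intro w _
    exact Finset.mem_range.2 (ZMod.val_lt w)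
  · intro n _
    exact Finset.mem_univ _
  · intro w _
    exact ZMod.natCast_zmod_val w
  · intro n hn
    exact ZMod.val_natCast_of_lt (Finset.mem_range.1 hn)
  · intro w _
    rfl

open Classical in
theorem sum_root (q : ℕ) [NeZero q] (θ : ℂ) (h : θ ^ q = 1) :
    ∑ w : ZMod q, θ ^ w.val = if θ = 1 then (q : ℂ) else 0 := by
  rw [sum_val q (fun n => θ ^ n)]
  split_ifs with h1
  · simp [h1]
  · have := geom_sum_mul θ q
    rw [h, sub_self] at this
    rcases mul_eq_zero.1 this with h2 | h2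
    · exact h2
    · exact absurd (sub_eq_zero.1 h2) h1

theorem sum_split (q : ℕ) [Fact q.Prime] (g : ZMod q → ℂ) :
    ∑ w : ZMod q, g w = g 0 + ∑ u : (ZMod q)ˣ, g (u : ZMod q) := by
  rw [← Finset.add_sum_erase Finset.univ g (Finset.mem_univ (0 : ZMod q))]
  congr 1
  symm
  refine Finset.sum_bij (fun u _ => (u : ZMod q)) ?_ ?_ ?_ ?_
  · intro u _
    exact Finset.mem_erase.2 ⟨u.ne_zero, Finset.mem_univ _⟩
  · intro u _ v _ h
    exact Units.ext h
  · intro w hw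
    exact ⟨Units.mk0 w (Finset.mem_erase.1 hw).1, Finset.mem_univ _, rfl⟩
  · intro u _
    rfl

/-- `pi c` as a permutation -/
def piE {I : Type} [Fintype I] [DecidableEq I] {p a : ℕ} (X : PD I p a) (c : (ZMod (p ^ a))ˣ) :
    I ≃ I where
  toFun := X.pi c
  invFun := X.pi c⁻¹
  left_inv i := by rw [← X.pi_mul, inv_mul_cancel, X.pi_one]
  right_inv i := by rw [← X.pi_mul, mul_inv_cancel, X.pi_one]

theorem hHEC : StHEC := by
  classical
  intro I _ _ p X f hf hft j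
  have hp : p.Prime := X.prime
  have : Fact (p ^ 1).Prime := ⟨by rw [pow_one]; exact hp⟩
  have : NeZero (p ^ 1) := ⟨(Fact.out : (p ^ 1).Prime).ne_zero⟩
  have hp0 : (p : ℂ) ≠ 0 := by exact_mod_cast hp.ne_zero
  set F : I → ℂ := fun k => ∑ i, X.s k i * f i with hF
  have hroot : ∀ k, ∑ w : ZMod (p ^ 1), X.t k ^ w.val = if X.t k = 1 then (p : ℂ) else 0 := by
    intro k
    rw [sum_root (p ^ 1) (X.t k) (X.t_pow k), pow_one]
  -- the double sum
  have h1 : (p : ℂ) * (∑ k, if X.t k = 1 then X.s j k * F k else 0) =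
      ∑ w : ZMod (p ^ 1), ∑ k, X.t k ^ w.val * (X.s j k * F k) := by
    rw [Finset.sum_comm, Finset.mul_sum]
    refine Finset.sum_congr rfl fun k _ => ?_
    rw [← Finset.sum_mul, hroot k]
    split_ifs <;> ring
  -- the term `w = 0`
  have h0 : ∑ k, X.t k ^ (0 : ZMod (p ^ 1)).val * (X.s j k * F k) = (p : ℂ) ^ 2 * f j := by
    have e1 : ∀ k, X.t k ^ (0 : ZMod (p ^ 1)).val * (X.s j k * F k) =
        ∑ i, f i * (X.s j k * X.s k i) := by
      intro k
      rw [ZMod.val_zero, pow_zero, one_mul, hF, Finset.mul_sum]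
      refine Finset.sum_congr rfl fun i _ => ?_
      ring
    rw [Finset.sum_congr rfl fun k _ => e1 k, Finset.sum_comm]
    have e2 : ∀ i, ∑ k, f i * (X.s j k * X.s k i) =
        (fun i' => if j = i' then (p : ℂ) ^ 2 * f i' else 0) (piE X (-1) i) := by
      intro i
      rw [← Finset.mul_sum, X.weil0 j i]
      change _ = if j = X.pi (-1) i then (p : ℂ) ^ 2 * f (X.pi (-1) i) else 0
      rw [hf]
      split_ifs <;> ring
    rw [Finset.sum_congr rfl fun i _ => e2 i,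
      Equiv.sum_comp (piE X (-1)) (fun i' => if j = i' then (p : ℂ) ^ 2 * f i' else 0)]
    simp
  -- the units
  have hu : ∀ w : (ZMod (p ^ 1))ˣ,
      ∑ k, X.t k ^ (w : ZMod (p ^ 1)).val * (X.s j k * F k) =
      (p : ℂ) * F j * X.t j ^ (-((w⁻¹ : (ZMod (p ^ 1))ˣ) : ZMod (p ^ 1))).val := by
    intro w
    have e1 : ∀ k, X.t k ^ (w : ZMod (p ^ 1)).val * (X.s j k * F k) =
        ∑ i, f i * (X.t k ^ (w : ZMod (p ^ 1)).val * (X.s j k * X.s k i)) := by
      intro k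
      rw [hF, Finset.mul_sum, Finset.mul_sum]
      refine Finset.sum_congr rfl fun i _ => ?_
      ring
    rw [Finset.sum_congr rfl fun k _ => e1 k, Finset.sum_comm]
    have e2 : ∀ i, ∑ k, f i * (X.t k ^ (w : ZMod (p ^ 1)).val * (X.s j k * X.s k i)) =
        (fun i' => (p : ℂ) * X.t j ^ (-((w⁻¹ : (ZMod (p ^ 1))ˣ) : ZMod (p ^ 1))).val *
          (X.s j i' * f i')) (piE X w⁻¹ i) := by
      intro i
      rw [← Finset.mul_sum, X.weil w j i]
      change _ = (p : ℂ) * X.t j ^ (-((w⁻¹ : (ZMod (p ^ 1))ˣ) : ZMod (p ^ 1))).val *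
          (X.s j (X.pi w⁻¹ i) * f (X.pi w⁻¹ i))
      rw [hf]
      by_cases h : f i = 0
      · rw [h]
        ring
      · rw [hft i h, one_pow]
        ring
    rw [Finset.sum_congr rfl fun i _ => e2 i,
      Equiv.sum_comp (piE X w⁻¹) (fun i' => (p : ℂ) *
        X.t j ^ (-((w⁻¹ : (ZMod (p ^ 1))ˣ) : ZMod (p ^ 1))).val * (X.s j i' * f i')),
      ← Finset.mul_sum]
    rw [hF]
    ring
  -- the sum over the units
  have h2 : ∑ w : (ZMod (p ^ 1))ˣ, X.t j ^ (-((w⁻¹ : (ZMod (p ^ 1))ˣ) : ZMod (p ^ 1))).val =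
      (if X.t j = 1 then (p : ℂ) else 0) - 1 := by
    have e1 : ∑ w : (ZMod (p ^ 1))ˣ, X.t j ^ (-((w⁻¹ : (ZMod (p ^ 1))ˣ) : ZMod (p ^ 1))).val =
        ∑ w : (ZMod (p ^ 1))ˣ, X.t j ^ (w : ZMod (p ^ 1)).val := by
      refine Eq.trans ?_ (Equiv.sum_comp
        ((Equiv.inv (ZMod (p ^ 1))ˣ).trans (Equiv.neg (ZMod (p ^ 1))ˣ))
        (fun w : (ZMod (p ^ 1))ˣ => X.t j ^ (w : ZMod (p ^ 1)).val))
      refine Finset.sum_congr rfl fun w _ => ?_
      change _ = X.t j ^ (((-(w⁻¹) : (ZMod (p ^ 1))ˣ)) : ZMod (p ^ 1)).val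
      rw [Units.val_neg]
    rw [e1, ← hroot j, sum_split (p ^ 1) (fun w => X.t j ^ w.val), ZMod.val_zero, pow_zero]
    ring
  have h3 : (p : ℂ) * (∑ k, if X.t k = 1 then X.s j k * F k else 0) =
      (p : ℂ) * ((p : ℂ) * f j + ((if X.t j = 1 then (p : ℂ) else 0) - 1) * F j) := by
    rw [h1, sum_split (p ^ 1) (fun w => ∑ k, X.t k ^ w.val * (X.s j k * F k)), h0,
      Finset.sum_congr rfl fun w _ => hu w, ← Finset.mul_sum, h2]
    ring
  exact mul_left_cancel₀ hp0 h3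

end Pool.Agent.Helper8.OS
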